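import Pool.Agent.Y63.NV.Stm6
import Pool.Agent.Y657.NV.KBlk

/-!
# Reduced central characters and normal `p`-subgroups

Job NV6-KCUT of helper63. The main lemma is `Pool.Agent.Y657.NV.lam_zero` of helper657.
-/

set_option autoImplicit false
set_option linter.unusedSectionVars false

open scoped Classical

noncomputable section

namespace Pool.Agent.Y255.NV

open Pool.Agent.Y63.NV
open Pool.Agent.Y63.AWC (IsIrreducibleCharacter)

theorem single_top {F : Type} [Field F] {J : Type} [Group J] (i : DecidableEq (⊤ : Subgroup J))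
    (j : DecidableEq J) :
    (fun x : J => (@Pi.single (⊤ : Subgroup J) (fun _ => F) _ i 1 (1 : F))
      ⟨x, Subgroup.mem_top x⟩) = @Pi.single J (fun _ => F) _ j 1 (1 : F) := by
  funext x
  by_cases hx : x = 1
  · subst hx
    rw [Pi.single_eq_same]
    exact Pi.single_eq_same _ _
  · have hx' : (⟨x, Subgroup.mem_top x⟩ : (⊤ : Subgroup J)) ≠ 1 := by
      intro h
      exact hx (congrArg Subtype.val h)
    rw [Pi.single_eq_of_ne hx, Pi.single_eq_of_ne hx']

/-- A block of the whole group, seen as a block of the subgroup `⊤`. -/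
theorem block_top {F : Type} [Field F] {J : Type} [Group J] (B : (J → F) → F) (hB : IsBlock B) :
    IsBlock (fun f : (⊤ : Subgroup J) → F => B (fun x : J => f ⟨x, Subgroup.mem_top x⟩)) := by
  have hc : ∀ f : (⊤ : Subgroup J) → F, IsClassFun f →
      IsClassFun (fun x : J => f ⟨x, Subgroup.mem_top x⟩) := by
    intro f hf g x
    exact hf ⟨g, Subgroup.mem_top g⟩ ⟨x, Subgroup.mem_top x⟩
  refine ⟨?_, ?_, ?_, ?_⟩
  · intro f g hf hg
    exact hB.add _ _ (hc f hf) (hc g hg)
  · intro a f hf
    exact hB.smul a _ (hc f hf)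
  · exact (congrArg B (single_top _ _)).trans hB.one
  · intro f g hf hg
    have e : (fun x : J => conv f g ⟨x, Subgroup.mem_top x⟩) =
        conv (fun x : J => f ⟨x, Subgroup.mem_top x⟩) (fun x : J => g ⟨x, Subgroup.mem_top x⟩) := by
      funext x
      unfold conv
      exact finsum_comp_equiv (Subgroup.topEquiv (G := J)).toEquiv (f := fun y : J =>
        f ⟨y, Subgroup.mem_top y⟩ * g ⟨y⁻¹ * x, Subgroup.mem_top _⟩)
    show B (fun x : J => conv f g ⟨x, Subgroup.mem_top x⟩) = _
    rw [e]
    exact hB.mul _ _ (hc f hf) (hc g hg)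

theorem kcut : S_KCUT := by
  intro p hp F _ _ _ red J _ _ Q hQn f χ hQ hf hχ
  obtain ⟨hadd, hsmul, hone, hmul⟩ := Pool.Agent.Y930.NV.cvh F red J χ hχ
  have hB : IsBlock (centralValue red χ : (J → F) → F) := ⟨hadd, hsmul, hone, hmul⟩
  have hcc : IsClassFun (cut f (Subgroup.centralizer (Q : Set J))) := by
    intro g x
    have hg : g ∈ Subgroup.normalizer (Q : Set J) := by
      rw [Subgroup.normalizer_eq_top]
      exact Subgroup.mem_top g
    have h := Pool.Agent.Y657.NV.cut_conj f hf ⊤ Q g x (Subgroup.mem_top g) hg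
    rwa [top_inf_eq] at h
  obtain ⟨d, hd⟩ : ∃ d : J → F, d = f + (-1 : F) • cut f (Subgroup.centralizer (Q : Set J)) :=
    ⟨_, rfl⟩
  have hsc : IsClassFun ((-1 : F) • cut f (Subgroup.centralizer (Q : Set J))) := by
    intro g x
    show (-1 : F) * cut f (Subgroup.centralizer (Q : Set J)) (g * x * g⁻¹) =
      (-1 : F) * cut f (Subgroup.centralizer (Q : Set J)) x
    rw [hcc g x]
  have hdc : IsClassFun d := by
    intro g x
    rw [hd]
    show f (g * x * g⁻¹) + ((-1 : F) • cut f (Subgroup.centralizer (Q : Set J))) (g * x * g⁻¹) =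
      f x + ((-1 : F) • cut f (Subgroup.centralizer (Q : Set J))) x
    rw [hf g x, hsc g x]
  have hd0 : centralValue red χ d = 0 := by
    refine Pool.Agent.Y657.NV.lam_zero (p := p) (⊤ : Subgroup J) Q hQ ?_ _ (block_top _ hB) d
      ?_ ?_ ?_ ?_
    · intro h _ t ht
      exact hQn.conj_mem t ht h
    · intro x hx
      exact absurd (Subgroup.mem_top x) hx
    · intro h _ x
      exact hdc h x
    · intro t _ x
      exact hdc t x
    · intro x hx
      have hxc : x ∈ Subgroup.centralizer (Q : Set J) := by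
        rw [Subgroup.mem_centralizer_iff]
        intro q hq
        exact hx q hq
      rw [hd]
      show f x + (-1 : F) * cut f (Subgroup.centralizer (Q : Set J)) x = 0
      unfold cut
      rw [if_pos hxc]
      ring
  rw [hd, hadd _ _ hf hsc, hsmul _ _ hcc] at hd0
  have e : centralValue red χ f + -1 * centralValue red χ (cut f
    (Subgroup.centralizer (Q : Set J))) = 0 := hd0
  linear_combination -e

end Pool.Agent.Y255.NV
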